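import Pool.Agent.helper62.DP8.Spec

/-!
# Project sq8: (MP_e3efbc_co): module DG9
-/

set_option autoImplicit false

namespace Pool.Agent.helper62.DP8

/-- The degree in the square is at most nine. -/
theorem DG9 (hDGB : DGB_stmt) : DG9_stmt := by
  classical
  intro V _ G hG x
  set N : Finset V := Finset.univ.filter (fun z => G.Adj x z) with hN
  have h1 := hDGB V G x N (fun z => by simp [hN])
  have h2 : N.card ≤ 3 := by
    have h3 := hG x
    have h4 : (G.neighborSet x) = (N : Set V) := by
      ext z
      simp [hN]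
    rw [h4, Set.ncard_coe_finset] at h3
    exact h3
  have h5 : ∑ z ∈ N, (G.neighborSet z).ncard ≤ ∑ z ∈ N, 3 := Finset.sum_le_sum (fun z _ => hG z)
  rw [Finset.sum_const, smul_eq_mul] at h5
  have h6 : dg (sq G) Finset.univ x ≤ ∑ z ∈ N, (G.neighborSet z).ncard := by
    convert h1
  omega

end Pool.Agent.helper62.DP8
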